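import Mathlib

set_option autoImplicit false

namespace Pool.Agent.Results.MP_122225_al.Neg

open Filter Topology Pointwise

/-- The real Hilbert space of square summable functions on `S`. -/
abbrev L2 (S : Type) := lp (fun _ : S => ℝ) 2

/-- There is a finitely additive probability measure on all subsets of `S` with
`μ (a⁻¹ A) = μ A`. -/
def LeftAmenable (S : Type) [Monoid S] : Prop :=
  ∃ μ : Set S → ℝ, (∀ A, 0 ≤ μ A) ∧ μ Set.univ = 1 ∧
    (∀ A B, Disjoint A B → μ (A ∪ B) = μ A + μ B) ∧ ∀ (a : S) (A : Set S), μ {s | a * s ∈ A} = μ A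

/-- No two disjoint principal right ideals. -/
def LeftReversible (S : Type) [Monoid S] : Prop := ∀ a b : S, ∃ u v, a * u = b * v

def Klawe (S : Type) [Monoid S] : Prop := ∀ s a b : S, s * a = s * b → ∃ t, a * t = b * t

/-- The matrix entry `M_{st}` of the left random walk. -/
noncomputable def entry {S : Type} [Monoid S] {k : ℕ} (x : Fin k → S) (s t : S) : ℝ :=
  (Set.ncard {i | x i * s = t} : ℝ) / k

/-- Bounded operators on `L2 S`. -/
abbrev B (S : Type) := L2 S →L[ℝ] L2 S

/-- The value at `t` of `v M`. -/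
noncomputable def app {S : Type} (M : B S) (v : L2 S) (t : S) : ℝ := M v t

/-- `M` is the left random walk operator of the family `x`. -/
def IsWalk {S : Type} [Monoid S] {k : ℕ} (x : Fin k → S) (M : B S) : Prop :=
  ∀ (v : L2 S) (t : S), HasSum (fun s => v s * entry x s t) (app M v t)

/-- The operator norm of `M ^ n`. -/
noncomputable def pn {S : Type} (M : B S) (n : ℕ) : ℝ := ‖M ^ n‖

section Op
variable {S : Type}

open Classical in
theorem piece (f : S → S) (P : S → Prop) (hP : ∀ a b, P a → P b → f a = f b → a = b) :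
    ∃ T : L2 S →L[ℝ] L2 S, ∀ v t,
      HasSum (fun s => v s * if P s ∧ f s = t then (1 : ℝ) else 0) (T v t) := by
  have h2 : (0 : ℝ) < (2 : ENNReal).toReal := by norm_num
  let F : L2 S → S → ℝ := fun v t => if h : ∃ s, P s ∧ f s = t then v h.choose else 0
  have hb : ∀ (v : L2 S) (D : Finset S), ∑ t ∈ D, ‖F v t‖ ^ (2 : ENNReal).toReal ≤
      ‖v‖ ^ (2 : ENNReal).toReal := by
    intro v D
    let σ : S → S := fun t => if h : ∃ s, P s ∧ f s = t then h.choose else t
    have e : ∑ t ∈ D, ‖F v t‖ ^ (2 : ENNReal).toReal =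
        ∑ t ∈ D.filter (fun t => ∃ s, P s ∧ f s = t), ‖v (σ t)‖ ^ (2 : ENNReal).toReal := by
      rw [Finset.sum_filter]
      refine Finset.sum_congr rfl fun t _ => ?_
      by_cases h : ∃ s, P s ∧ f s = t
      · simp only [F, σ, dif_pos h, if_pos h]
      · simp only [F, dif_neg h, if_neg h]; simp
    rw [e, ← Finset.sum_image (f := fun s => ‖v s‖ ^ (2 : ENNReal).toReal) (g := σ)]
    · exact sum_le_hasSum _ (fun _ _ => by positivity) (lp.hasSum_norm h2 v)
    · intro a ha b hb hab
      have ha := (Finset.mem_filter.1 ha).2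
      have hb := (Finset.mem_filter.1 hb).2
      simp only [σ, dif_pos ha, dif_pos hb] at hab
      rw [← ha.choose_spec.2, hab, hb.choose_spec.2]
  let T : L2 S →ₗ[ℝ] L2 S :=
    { toFun := fun v => ⟨F v, memℓp_gen' (hb v)⟩
      map_add' := fun v w => lp.ext (funext fun t => by
        show F (v + w) t = F v t + F w t
        simp only [F]; split_ifs <;> simp)
      map_smul' := fun c v => lp.ext (funext fun t => by
        show F (c • v) t = c • F v t
        simp only [F]; split_ifs <;> simp) }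
  refine ⟨T.mkContinuous 1 fun v => ?_, fun v t => ?_⟩
  · rw [one_mul]
    exact lp.norm_le_of_forall_sum_le h2 (norm_nonneg _) (hb v)
  · show HasSum _ (F v t)
    by_cases h : ∃ s, P s ∧ f s = t
    · have := hasSum_single (f := fun s => v s * if P s ∧ f s = t then (1 : ℝ) else 0) h.choose
        fun s hs => by
          rw [if_neg, mul_zero]
          exact fun h' => hs (hP _ _ h'.1 h.choose_spec.1 (h'.2.trans h.choose_spec.2.symm))
      simp only [if_pos h.choose_spec, mul_one] at this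
      simpa only [F, dif_pos h] using this
    · simp only [F, dif_neg h]
      convert hasSum_zero using 2 with s
      rw [if_neg fun h' => h ⟨s, h'⟩, mul_zero]

open Classical in
theorem two (f : S → S) (P : S → Prop) (hP : ∀ a b, (P a ↔ P b) → f a = f b → a = b) :
    ∃ T : L2 S →L[ℝ] L2 S, ∀ v t, HasSum (fun s => v s * if f s = t then (1 : ℝ) else 0) (T v t) := by
  obtain ⟨T, hT⟩ := piece f P fun a b ha hb => hP a b (iff_of_true ha hb)
  obtain ⟨U, hU⟩ := piece f (fun s => ¬P s) fun a b ha hb => hP a b (iff_of_false ha hb)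
  refine ⟨T + U, fun v t => ?_⟩
  have e : (fun s => v s * if f s = t then (1 : ℝ) else 0) = fun s =>
      (v s * if P s ∧ f s = t then (1 : ℝ) else 0) + v s * if ¬P s ∧ f s = t then (1 : ℝ) else 0 :=
    funext fun s => by by_cases h : P s <;> simp [h]
  rw [e]
  exact (hT v t).add (by convert hU v t; rfl)

theorem lower [Monoid S] (M : L2 S →L[ℝ] L2 S) (m : S → S → ℝ) (y : S) (c : ℝ) (hc : 0 ≤ c)
    (hM : ∀ v t, HasSum (fun s => v s * m s t) (M v t)) (h0 : ∀ s t, 0 ≤ m s t)
    (hy : ∀ s, c ≤ m s (y * s)) (n : ℕ) : ∀ (v : L2 S), (∀ s, 0 ≤ v s) → ∀ (D : Finset S) (t : S),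
      (∀ s ∈ D, y ^ n * s = t) → c ^ n * ∑ s ∈ D, v s ≤ (M ^ n) v t := by
  classical
  induction n with
  | zero =>
    intro v hv D t hD
    simp only [pow_zero, one_mul] at hD ⊢
    have : D ⊆ {t} := fun s hs => Finset.mem_singleton.2 (hD s hs)
    exact (Finset.sum_le_sum_of_subset_of_nonneg this fun s _ _ => hv s).trans (by simp)
  | succ n ih =>
    intro v hv D t hD
    have hp : ∀ s, 0 ≤ M v s := fun s => (hM v s).nonneg fun u => mul_nonneg (hv u) (h0 u s)
    have := ih (M v) hp (D.image (y * ·)) t fun s hs => by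
      obtain ⟨u, hu, rfl⟩ := Finset.mem_image.1 hs
      rw [← mul_assoc, ← pow_succ, hD u hu]
    rw [pow_succ M]
    refine le_trans ?_ this
    rw [pow_succ, mul_assoc]
    refine mul_le_mul_of_nonneg_left ?_ (pow_nonneg hc n)
    rw [← Finset.sum_fiberwise_of_maps_to (g := (y * ·)) (t := D.image (y * ·))
      fun s hs => Finset.mem_image_of_mem _ hs, Finset.mul_sum]
    refine Finset.sum_le_sum fun u _ => le_trans ?_
      (sum_le_hasSum (D.filter fun s => y * s = u) (fun s _ => mul_nonneg (hv s) (h0 s u)) (hM v u))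
    rw [Finset.mul_sum]
    refine Finset.sum_le_sum fun s hs => ?_
    rw [← (Finset.mem_filter.1 hs).2, mul_comm]
    exact mul_le_mul_of_nonneg_left (hy s) (hv s)

theorem nrm [Monoid S] (N : L2 S →L[ℝ] L2 S) (c : ℝ) (t : S) (D : Finset S) (hD : 1 ≤ c ^ 2 * D.card)
    (hc : 0 ≤ c) (h : ∀ v : L2 S, (∀ s, 0 ≤ v s) → c * ∑ s ∈ D, v s ≤ N v t) : 1 ≤ ‖N‖ := by
  classical
  have h2 : (0 : ℝ) < (2 : ENNReal).toReal := by norm_num
  let v : L2 S := ∑ s ∈ D, lp.single 2 s ((fun _ => 1 : S → ℝ) s)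
  have hv : ∀ s, v s = if s ∈ D then 1 else 0 := fun s => by
    simp only [v, lp.coeFn_single, lp.coeFn_sum, Finset.sum_apply, Finset.sum_pi_single]
  have hn : ‖v‖ ^ 2 = D.card := by
    have := lp.norm_sum_single (E := fun _ : S => ℝ) h2 (fun _ => 1) D
    simpa using this
  have h1 := h v fun s => by rw [hv]; split_ifs <;> norm_num
  rw [Finset.sum_congr rfl fun s hs => (hv s).trans (if_pos hs)] at h1
  simp only [Finset.sum_const, nsmul_eq_mul, mul_one] at h1
  have h3 : N v t ≤ ‖N‖ * ‖v‖ :=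
    (Real.le_norm_self _).trans ((lp.norm_apply_le_norm (by norm_num) _ t).trans (N.le_opNorm v))
  have h4 : 1 ≤ c * ‖v‖ := by
    rw [← hn, ← mul_pow] at hD
    exact (one_le_sq_iff₀ (by positivity)).1 hD
  have h5 : 0 < ‖v‖ := by
    by_contra h6
    have : ‖v‖ = 0 := le_antisymm (not_lt.1 h6) (norm_nonneg _)
    rw [this] at h4; norm_num at h4
  rw [← hn] at h1
  have : c * ‖v‖ * ‖v‖ ≤ ‖N‖ * ‖v‖ := by nlinarith
  exact h4.trans (le_of_mul_le_mul_right this h5)

end Op

abbrev G := FreeGroup Bool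

/-- Finite subsets of the free group under union, extended by the free group. -/
@[ext] structure W where
  l : Finset G
  g : G

instance : Monoid W where
  mul a b := ⟨a.l ∪ a.g • b.l, a.g * b.g⟩
  one := ⟨∅, 1⟩
  mul_assoc a b c := W.ext (by
    show (a.l ∪ a.g • b.l) ∪ (a.g * b.g) • c.l = a.l ∪ a.g • (b.l ∪ b.g • c.l)
    rw [Finset.smul_finset_union, mul_smul, Finset.union_assoc]) (mul_assoc _ _ _)
  one_mul a := W.ext (by show ∅ ∪ (1 : G) • a.l = a.l; simp) (one_mul _)
  mul_one a := W.ext (by show a.l ∪ a.g • (∅ : Finset G) = a.l; simp) (mul_one _)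

theorem ml (a b : W) : (a * b).l = a.l ∪ a.g • b.l := rfl
theorem mg (a b : W) : (a * b).g = a.g * b.g := rfl

def q : Equiv.Perm ℤ where
  toFun n := if n % 2 = 0 then 2 * n else 4 * (n / 2 / 3) + 1 + n / 2 % 3
  invFun n := if n % 4 = 0 then n / 2 else 2 * (3 * (n / 4) + n % 4 - 1) + 1
  left_inv n := by simp only; split_ifs <;> omega
  right_inv n := by simp only; split_ifs <;> omega

def φ : G →* Equiv.Perm ℤ := FreeGroup.lift fun b => cond b (Equiv.addRight 1) q

theorem φt (n : ℤ) : φ (.of true) n = n + 1 := by simp [φ]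
theorem φf (n : ℤ) : φ (.of false) n = q n := by simp [φ]

theorem na : ¬LeftAmenable W := by
  rintro ⟨μ, -, h1, ha, hi⟩
  let ν : Set ℤ → ℝ := fun E => μ {s | φ s.g 0 ∈ E}
  have i : ∀ (g : G) (E F : Set ℤ), (∀ n, n ∈ F ↔ φ g n ∈ E) → ν F = ν E := fun g E F h => by
    refine Eq.trans (congrArg μ ?_) (hi ⟨∅, g⟩ {s | φ s.g 0 ∈ E})
    ext s
    simp [mg, h]
  have a : ∀ E F U : Set ℤ, (∀ n, n ∈ E → n ∉ F) → (∀ n, n ∈ U ↔ n ∈ E ∨ n ∈ F) →
      ν U = ν E + ν F := fun E F U h e => by
    refine Eq.trans (congrArg μ ?_) (ha _ _ (Set.disjoint_left.2 fun s => h _))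
    ext s
    simp [e]
  have e0 := i (.of true) {n | n % 4 = 1} {n | n % 4 = 0} fun n => by simp only [φt, Set.mem_setOf_eq]; omega
  have e1 := i (.of true) {n | n % 4 = 2} {n | n % 4 = 1} fun n => by simp only [φt, Set.mem_setOf_eq]; omega
  have e2 := i (.of true) {n | n % 2 = 1} {n | n % 2 = 0} fun n => by simp only [φt, Set.mem_setOf_eq]; omega
  have e3 := i (.of false) {n | n % 4 = 0} {n | n % 2 = 0} fun n => by
    simp only [φf, Set.mem_setOf_eq, q, Equiv.coe_fn_mk]; split_ifs <;> omega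
  have e4 := a {n | n % 4 = 0} {n | n % 4 = 2} {n | n % 2 = 0}
    (fun n => by simp only [Set.mem_setOf_eq]; omega) fun n => by simp only [Set.mem_setOf_eq]; omega
  have e5 := a {n | n % 2 = 0} {n | n % 2 = 1} Set.univ
    (fun n => by simp only [Set.mem_setOf_eq]; omega) fun n => by
      simp only [Set.mem_setOf_eq, Set.mem_univ, true_iff]; omega
  have e6 : ν Set.univ = 1 := h1
  linarith

def y : W := ⟨{1}, .of true⟩

def x (i : Fin 16) : W :=
  if i = 0 then ⟨∅, .of true⟩ else if i = 1 then ⟨∅, .of false⟩ else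
  if i = 2 then ⟨∅, (.of true)⁻¹⟩ else if i = 3 then ⟨∅, (.of false)⁻¹⟩ else y

theorem gen : Submonoid.closure (Set.range x) = ⊤ := by
  have hx : ∀ i, x i ∈ Submonoid.closure (Set.range x) := fun i => Submonoid.subset_closure ⟨i, rfl⟩
  have hg : ∀ g : G, (⟨∅, g⟩ : W) ∈ Submonoid.closure (Set.range x) := fun g => by
    induction g using FreeGroup.induction_on with
    | C1 => exact one_mem _
    | of b => cases b; exacts [hx 1, hx 0]
    | inv_of b _ => cases b; exacts [hx 3, hx 2]
    | mul a b ha hb => convert mul_mem ha hb using 1; exact W.ext (by simp [ml]) rfl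
  refine eq_top_iff.2 fun ⟨A, g⟩ _ => ?_
  induction A using Finset.induction_on with
  | empty => exact hg g
  | insert z A _ ih =>
    convert mul_mem (mul_mem (mul_mem (hg z) (hx 4)) (hg ((.of true)⁻¹ * z⁻¹))) (ih trivial) using 1
    have : x 4 = y := rfl
    exact W.ext (by simp [ml, mg, this, y]) (by simp [mg, this, y])

theorem card_y (n : ℕ) : (y ^ n).l.card = n ∧ ∀ z ∈ (y ^ n).l, 0 ≤ φ z 0 := by
  induction n with
  | zero => exact ⟨rfl, fun z hz => absurd hz (Finset.notMem_empty z)⟩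
  | succ n ih =>
    have h : ∀ z ∈ (FreeGroup.of true : G) • (y ^ n).l, 0 < φ z 0 := fun z hz => by
      obtain ⟨u, hu, rfl⟩ := Finset.mem_smul_finset.1 hz
      have := ih.2 u hu
      rw [smul_eq_mul, map_mul, Equiv.Perm.mul_apply, φt]; omega
    have e : (y ^ (n + 1)).l = insert 1 ((FreeGroup.of true : G) • (y ^ n).l) := by
      rw [pow_succ', ml, Finset.insert_eq]; rfl
    rw [e]
    refine ⟨?_, fun z hz => ?_⟩
    · rw [Finset.card_insert_of_notMem fun h1 => by simpa using h 1 h1, Finset.card_smul_finset, ih.1]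
    · rcases Finset.mem_insert.1 hz with rfl | hz
      · simp
      · exact (h z hz).le

theorem result : ∃ (S : Type) (_ : Monoid S) (k : ℕ) (x : Fin k → S),
    Submonoid.closure (Set.range x) = ⊤ ∧ LeftReversible S ∧ Klawe S ∧
    (∃ M : B S, IsWalk x M ∧ (∀ n : ℕ, 1 ≤ pn M n) ∧
      ∀ ρ, Tendsto (fun n : ℕ => pn M n ^ (1 / n : ℝ)) atTop (𝓝 ρ) → 1 ≤ ρ) ∧
    ¬LeftAmenable S := by
  classical
  refine ⟨W, inferInstance, 16, x, gen, fun a b => ⟨⟨a.g⁻¹ • b.l, a.g⁻¹⟩, ⟨b.g⁻¹ • a.l, b.g⁻¹⟩,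
    W.ext (by simp [ml, Finset.union_comm]) (by simp [mg])⟩, fun s a b h => ?_, ?_, na⟩
  · have e : a.g = b.g := mul_left_cancel (congrArg W.g h)
    exact ⟨⟨a.g⁻¹ • (a.l ∪ b.l), 1⟩, W.ext (by simp [ml, e, Finset.union_left_comm]) (by simp [mg, e])⟩
  have hx : ∀ i, ∀ z ∈ (x i).l, z = 1 := fun i z => by
    unfold x; split_ifs <;> simp [y]
  choose T hT using fun i => two (x i * ·) (fun s => 1 ∈ (x i).g • s.l) fun a b h e => by
    refine W.ext (MulAction.injective (x i).g (Finset.ext fun z => ?_))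
      (mul_left_cancel (congrArg W.g e))
    have := Finset.ext_iff.1 (congrArg W.l e) z
    simp only [ml, Finset.mem_union] at this
    by_cases hz : z ∈ (x i).l
    · rw [hx i z hz]; exact h
    · simpa only [hz, false_or] using this
  have hc : ∀ s t, (Set.ncard {i | x i * s = t} : ℝ) = ∑ i, if x i * s = t then (1 : ℝ) else 0 :=
    fun s t => by
      rw [Finset.sum_boole, ← Set.ncard_coe_finset]; congr 2; ext; simp
  have hM : ∀ (v : L2 W) t, HasSum (fun s => v s * ((Set.ncard {i | x i * s = t} : ℝ) / (16 : ℕ)))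
      (((1 / 16 : ℝ) • ∑ i, T i) v t) := fun v t => by
    have e : (fun s => v s * ((Set.ncard {i | x i * s = t} : ℝ) / (16 : ℕ))) = fun s =>
        1 / 16 * ∑ i, v s * if x i * s = t then (1 : ℝ) else 0 :=
      funext fun s => by rw [hc, ← Finset.mul_sum]; push_cast; ring
    have e' : ((1 / 16 : ℝ) • ∑ i, T i) v t = 1 / 16 * ∑ i, T i v t := by
      simp [lp.coeFn_sum]
      exact Finset.sum_apply _ _ _
    rw [e, e']
    exact (hasSum_sum fun i (_ : i ∈ Finset.univ) => hT i v t).mul_left (1 / 16)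
  have hn : ∀ n : ℕ, 1 ≤ ‖((1 / 16 : ℝ) • ∑ i, T i) ^ n‖ := fun n => by
    let D : Finset W := (y ^ n).l.powerset.image fun B => ⟨(y ^ n).g⁻¹ • B, 1⟩
    have hD : D.card = 2 ^ n := by
      rw [Finset.card_image_of_injective _ fun A B h => MulAction.injective _ (congrArg W.l h),
        Finset.card_powerset, (card_y n).1]
    refine nrm _ ((3 / 4) ^ n) (y ^ n) D ?_ (by positivity) fun v hv =>
      lower _ _ y (3 / 4) (by norm_num) hM (fun s t => by positivity) (fun s => ?_) n v hv D _ ?_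
    · rw [hD, ← pow_mul, mul_comm n, pow_mul]; push_cast; rw [← mul_pow]
      exact one_le_pow₀ (by norm_num)
    · have : Set.ncard {i : Fin 16 | 4 ≤ i} ≤ Set.ncard {i | x i * s = y * s} :=
        Set.ncard_le_ncard fun i hi => by
          have hi : 4 ≤ i := hi
          have : x i = y := by unfold x; split_ifs <;> first | rfl | (subst_vars; exact absurd hi (by decide))
          simp [this]
      have e : Set.ncard {i : Fin 16 | 4 ≤ i} = 12 := by
        rw [← Set.ncard_coe_finset (Finset.univ.filter fun i : Fin 16 => 4 ≤ i) |>.trans (by decide : _ = 12)]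
        congr 1; ext; simp
      rw [e] at this
      have : (12 : ℝ) ≤ Set.ncard {i | x i * s = y * s} := by exact_mod_cast this
      push_cast; linarith
    · intro s hs
      obtain ⟨B, hB, rfl⟩ := Finset.mem_image.1 hs
      exact W.ext (by simpa [ml] using hB) (by simp [mg])
  refine ⟨_, hM, hn, fun ρ h => ge_of_tendsto' h fun n => ?_⟩
  exact Real.one_le_rpow (hn n) (by positivity)

end Pool.Agent.Results.MP_122225_al.Neg
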